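import Mathlib
import Pool.Agent.H23.KD.C19.B0
import Pool.Agent.H23.KD.C19.B1
import Pool.Agent.H23.KD.C19.B2
import Pool.Agent.H23.KD.C19.B3
import Pool.Agent.H23.KD.C19.B4
import Pool.Agent.H23.KD.C19.B5
import Pool.Agent.H23.KD.C19.B6
import Pool.Agent.H23.KD.C19.B7
import Pool.Agent.H23.KD.C19.B8
import Pool.Agent.H23.KD.C19.B9
import Pool.Agent.H23.KD.C19.B10
import Pool.Agent.H23.KD.C19.B11
import Pool.Agent.H23.KD.C19.B12
import Pool.Agent.H23.KD.C19.B13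
import Pool.Agent.H23.KD.C19.B14
import Pool.Agent.H23.KD.C19.B15
import Pool.Agent.H23.KD.Snd

set_option autoImplicit false
set_option maxRecDepth 100000
set_option linter.all false

namespace Pool.Agent.H23.KD.C19

open Pool.Agent.H23.KD

variable {w : ℕ → Bool}

theorem O0 (hw : Val w ET IT) : Ok w CT 352 Z0 :=
  Ok.block hw B0 L0 (Ok.zero w CT)
theorem O1 (hw : Val w ET IT) : Ok w CT 618 Z1 :=
  Ok.block hw B1 L1 (O0 hw)
theorem O2 (hw : Val w ET IT) : Ok w CT 835 Z2 :=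
  Ok.block hw B2 L2 (O1 hw)
theorem O3 (hw : Val w ET IT) : Ok w CT 1167 Z3 :=
  Ok.block hw B3 L3 (O2 hw)
theorem O4 (hw : Val w ET IT) : Ok w CT 1530 Z4 :=
  Ok.block hw B4 L4 (O3 hw)
theorem O5 (hw : Val w ET IT) : Ok w CT 1895 Z5 :=
  Ok.block hw B5 L5 (O4 hw)
theorem O6 (hw : Val w ET IT) : Ok w CT 2257 Z6 :=
  Ok.block hw B6 L6 (O5 hw)
theorem O7 (hw : Val w ET IT) : Ok w CT 2545 Z7 :=
  Ok.block hw B7 L7 (O6 hw)
theorem O8 (hw : Val w ET IT) : Ok w CT 2835 Z8 :=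
  Ok.block hw B8 L8 (O7 hw)
theorem O9 (hw : Val w ET IT) : Ok w CT 3276 Z9 :=
  Ok.block hw B9 L9 (O8 hw)
theorem O10 (hw : Val w ET IT) : Ok w CT 3586 Z10 :=
  Ok.block hw B10 L10 (O9 hw)
theorem O11 (hw : Val w ET IT) : Ok w CT 3858 Z11 :=
  Ok.block hw B11 L11 (O10 hw)
theorem O12 (hw : Val w ET IT) : Ok w CT 4139 Z12 :=
  Ok.block hw B12 L12 (O11 hw)
theorem O13 (hw : Val w ET IT) : Ok w CT 4406 Z13 :=
  Ok.block hw B13 L13 (O12 hw)
theorem O14 (hw : Val w ET IT) : Ok w CT 4675 Z14 :=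
  Ok.block hw B14 L14 (O13 hw)
theorem O15 (hw : Val w ET IT) : Ok w CT 5065 Z15 :=
  Ok.block hw B15 L15 (O14 hw)
theorem O16 (hw : Val w ET IT) : Ok w CT 5430 Z16 :=
  Ok.block hw B16 L16 (O15 hw)
theorem O17 (hw : Val w ET IT) : Ok w CT 5824 Z17 :=
  Ok.block hw B17 L17 (O16 hw)
theorem O18 (hw : Val w ET IT) : Ok w CT 6101 Z18 :=
  Ok.block hw B18 L18 (O17 hw)
theorem O19 (hw : Val w ET IT) : Ok w CT 6363 Z19 :=
  Ok.block hw B19 L19 (O18 hw)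
theorem O20 (hw : Val w ET IT) : Ok w CT 6676 Z20 :=
  Ok.block hw B20 L20 (O19 hw)
theorem O21 (hw : Val w ET IT) : Ok w CT 6873 Z21 :=
  Ok.block hw B21 L21 (O20 hw)
theorem O22 (hw : Val w ET IT) : Ok w CT 7111 Z22 :=
  Ok.block hw B22 L22 (O21 hw)
theorem O23 (hw : Val w ET IT) : Ok w CT 7360 Z23 :=
  Ok.block hw B23 L23 (O22 hw)
theorem O24 (hw : Val w ET IT) : Ok w CT 7587 Z24 :=
  Ok.block hw B24 L24 (O23 hw)
theorem O25 (hw : Val w ET IT) : Ok w CT 7850 Z25 :=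
  Ok.block hw B25 L25 (O24 hw)
theorem O26 (hw : Val w ET IT) : Ok w CT 8077 Z26 :=
  Ok.block hw B26 L26 (O25 hw)
theorem O27 (hw : Val w ET IT) : Ok w CT 8300 Z27 :=
  Ok.block hw B27 L27 (O26 hw)
theorem O28 (hw : Val w ET IT) : Ok w CT 8532 Z28 :=
  Ok.block hw B28 L28 (O27 hw)
theorem O29 (hw : Val w ET IT) : Ok w CT 8816 Z29 :=
  Ok.block hw B29 L29 (O28 hw)
theorem O30 (hw : Val w ET IT) : Ok w CT 9055 Z30 :=
  Ok.block hw B30 L30 (O29 hw)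
theorem O31 (hw : Val w ET IT) : Ok w CT 9230 Z31 :=
  Ok.block hw B31 L31 (O30 hw)
theorem O32 (hw : Val w ET IT) : Ok w CT 9440 Z32 :=
  Ok.block hw B32 L32 (O31 hw)
theorem O33 (hw : Val w ET IT) : Ok w CT 9571 Z33 :=
  Ok.block hw B33 L33 (O32 hw)
theorem O34 (hw : Val w ET IT) : Ok w CT 9815 Z34 :=
  Ok.block hw B34 L34 (O33 hw)
theorem O35 (hw : Val w ET IT) : Ok w CT 10054 Z35 :=
  Ok.block hw B35 L35 (O34 hw)
theorem O36 (hw : Val w ET IT) : Ok w CT 10337 Z36 :=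
  Ok.block hw B36 L36 (O35 hw)
theorem O37 (hw : Val w ET IT) : Ok w CT 10570 Z37 :=
  Ok.block hw B37 L37 (O36 hw)
theorem O38 (hw : Val w ET IT) : Ok w CT 10687 Z38 :=
  Ok.block hw B38 L38 (O37 hw)
theorem O39 (hw : Val w ET IT) : Ok w CT 10847 Z39 :=
  Ok.block hw B39 L39 (O38 hw)
theorem O40 (hw : Val w ET IT) : Ok w CT 10989 Z40 :=
  Ok.block hw B40 L40 (O39 hw)
theorem O41 (hw : Val w ET IT) : Ok w CT 11125 Z41 :=
  Ok.block hw B41 L41 (O40 hw)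
theorem O42 (hw : Val w ET IT) : Ok w CT 11180 Z42 :=
  Ok.block hw B42 L42 (O41 hw)
theorem O43 (hw : Val w ET IT) : Ok w CT 11346 Z43 :=
  Ok.block hw B43 L43 (O42 hw)
theorem O44 (hw : Val w ET IT) : Ok w CT 11653 Z44 :=
  Ok.block hw B44 L44 (O43 hw)
theorem O45 (hw : Val w ET IT) : Ok w CT 11879 Z45 :=
  Ok.block hw B45 L45 (O44 hw)
theorem O46 (hw : Val w ET IT) : Ok w CT 12127 Z46 :=
  Ok.block hw B46 L46 (O45 hw)
theorem O47 (hw : Val w ET IT) : Ok w CT 12348 Z47 :=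
  Ok.block hw B47 L47 (O46 hw)
theorem O48 (hw : Val w ET IT) : Ok w CT 12618 Z48 :=
  Ok.block hw B48 L48 (O47 hw)
theorem O49 (hw : Val w ET IT) : Ok w CT 12871 Z49 :=
  Ok.block hw B49 L49 (O48 hw)
theorem O50 (hw : Val w ET IT) : Ok w CT 13138 Z50 :=
  Ok.block hw B50 L50 (O49 hw)
theorem O51 (hw : Val w ET IT) : Ok w CT 13372 Z51 :=
  Ok.block hw B51 L51 (O50 hw)
theorem O52 (hw : Val w ET IT) : Ok w CT 13666 Z52 :=
  Ok.block hw B52 L52 (O51 hw)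
theorem O53 (hw : Val w ET IT) : Ok w CT 13890 Z53 :=
  Ok.block hw B53 L53 (O52 hw)
theorem O54 (hw : Val w ET IT) : Ok w CT 14125 Z54 :=
  Ok.block hw B54 L54 (O53 hw)
theorem O55 (hw : Val w ET IT) : Ok w CT 14332 Z55 :=
  Ok.block hw B55 L55 (O54 hw)
theorem O56 (hw : Val w ET IT) : Ok w CT 14591 Z56 :=
  Ok.block hw B56 L56 (O55 hw)
theorem O57 (hw : Val w ET IT) : Ok w CT 14951 Z57 :=
  Ok.block hw B57 L57 (O56 hw)
theorem O58 (hw : Val w ET IT) : Ok w CT 15206 Z58 :=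
  Ok.block hw B58 L58 (O57 hw)
theorem O59 (hw : Val w ET IT) : Ok w CT 15432 Z59 :=
  Ok.block hw B59 L59 (O58 hw)
theorem O60 (hw : Val w ET IT) : Ok w CT 15646 Z60 :=
  Ok.block hw B60 L60 (O59 hw)
theorem O61 (hw : Val w ET IT) : Ok w CT 15984 Z61 :=
  Ok.block hw B61 L61 (O60 hw)
theorem O62 (hw : Val w ET IT) : Ok w CT 16263 Z62 :=
  Ok.block hw B62 L62 (O61 hw)
theorem O63 (hw : Val w ET IT) : Ok w CT 16519 Z63 :=
  Ok.block hw B63 L63 (O62 hw)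
theorem O64 (hw : Val w ET IT) : Ok w CT 16744 Z64 :=
  Ok.block hw B64 L64 (O63 hw)
theorem O65 (hw : Val w ET IT) : Ok w CT 16998 Z65 :=
  Ok.block hw B65 L65 (O64 hw)
theorem O66 (hw : Val w ET IT) : Ok w CT 17229 Z66 :=
  Ok.block hw B66 L66 (O65 hw)
theorem O67 (hw : Val w ET IT) : Ok w CT 17442 Z67 :=
  Ok.block hw B67 L67 (O66 hw)
theorem O68 (hw : Val w ET IT) : Ok w CT 17685 Z68 :=
  Ok.block hw B68 L68 (O67 hw)
theorem O69 (hw : Val w ET IT) : Ok w CT 17916 Z69 :=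
  Ok.block hw B69 L69 (O68 hw)
theorem O70 (hw : Val w ET IT) : Ok w CT 18175 Z70 :=
  Ok.block hw B70 L70 (O69 hw)
theorem O71 (hw : Val w ET IT) : Ok w CT 18436 Z71 :=
  Ok.block hw B71 L71 (O70 hw)
theorem O72 (hw : Val w ET IT) : Ok w CT 18637 Z72 :=
  Ok.block hw B72 L72 (O71 hw)
theorem O73 (hw : Val w ET IT) : Ok w CT 18847 Z73 :=
  Ok.block hw B73 L73 (O72 hw)
theorem O74 (hw : Val w ET IT) : Ok w CT 19035 Z74 :=
  Ok.block hw B74 L74 (O73 hw)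
theorem O75 (hw : Val w ET IT) : Ok w CT 19287 Z75 :=
  Ok.block hw B75 L75 (O74 hw)
theorem O76 (hw : Val w ET IT) : Ok w CT 19543 Z76 :=
  Ok.block hw B76 L76 (O75 hw)
theorem O77 (hw : Val w ET IT) : Ok w CT 19770 Z77 :=
  Ok.block hw B77 L77 (O76 hw)
theorem O78 (hw : Val w ET IT) : Ok w CT 19959 Z78 :=
  Ok.block hw B78 L78 (O77 hw)
theorem O79 (hw : Val w ET IT) : Ok w CT 20242 Z79 :=
  Ok.block hw B79 L79 (O78 hw)
theorem O80 (hw : Val w ET IT) : Ok w CT 20479 Z80 :=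
  Ok.block hw B80 L80 (O79 hw)
theorem O81 (hw : Val w ET IT) : Ok w CT 20738 Z81 :=
  Ok.block hw B81 L81 (O80 hw)
theorem O82 (hw : Val w ET IT) : Ok w CT 21009 Z82 :=
  Ok.block hw B82 L82 (O81 hw)
theorem O83 (hw : Val w ET IT) : Ok w CT 21272 Z83 :=
  Ok.block hw B83 L83 (O82 hw)
theorem O84 (hw : Val w ET IT) : Ok w CT 21479 Z84 :=
  Ok.block hw B84 L84 (O83 hw)
theorem O85 (hw : Val w ET IT) : Ok w CT 21653 Z85 :=
  Ok.block hw B85 L85 (O84 hw)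
theorem O86 (hw : Val w ET IT) : Ok w CT 21820 Z86 :=
  Ok.block hw B86 L86 (O85 hw)
theorem O87 (hw : Val w ET IT) : Ok w CT 22137 Z87 :=
  Ok.block hw B87 L87 (O86 hw)
theorem O88 (hw : Val w ET IT) : Ok w CT 22320 Z88 :=
  Ok.block hw B88 L88 (O87 hw)
theorem O89 (hw : Val w ET IT) : Ok w CT 22559 Z89 :=
  Ok.block hw B89 L89 (O88 hw)
theorem O90 (hw : Val w ET IT) : Ok w CT 22794 Z90 :=
  Ok.block hw B90 L90 (O89 hw)
theorem O91 (hw : Val w ET IT) : Ok w CT 23034 Z91 :=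
  Ok.block hw B91 L91 (O90 hw)
theorem O92 (hw : Val w ET IT) : Ok w CT 23348 Z92 :=
  Ok.block hw B92 L92 (O91 hw)
theorem O93 (hw : Val w ET IT) : Ok w CT 23609 Z93 :=
  Ok.block hw B93 L93 (O92 hw)
theorem O94 (hw : Val w ET IT) : Ok w CT 23857 Z94 :=
  Ok.block hw B94 L94 (O93 hw)
theorem O95 (hw : Val w ET IT) : Ok w CT 24044 Z95 :=
  Ok.block hw B95 L95 (O94 hw)

theorem last_empty : Nat.land (get8 CT 24043) 4095 = 0 := by decide +kernel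

/-- there is no valuation -/
theorem no_val (hw : Val w ET IT) : False :=
  Ok.false (O95 hw) (by norm_num : 24043 < 24044) last_empty

end Pool.Agent.H23.KD.C19
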